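import Pool.Agent.Run7.h400.GK.StmK

set_option autoImplicit false

namespace Run7.h592.GK

open Polynomial Finset Run7.h400.GK

theorem aeval_pow {Fq E : Type} [Field Fq] [Fintype Fq] [Field E] [Algebra Fq E] (x : E)
    (p : Fq[X]) (i : ℕ) :
    aeval (x ^ (Fintype.card Fq ^ i)) p = (aeval x p) ^ (Fintype.card Fq ^ i) := by
  induction i with
  | zero => simp
  | succ i ih =>
    have h1 : ∀ y : E, aeval (y ^ Fintype.card Fq) p = (aeval y p) ^ Fintype.card Fq := by
      intro y
      rw [← expand_aeval, FiniteField.expand_card, map_pow]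
    rw [pow_succ, pow_mul, h1, ih, ← pow_mul]

theorem t_FRB : S_FRB := by
  intro Fq E _ _ _ _ _ w θ q d D
  obtain rfl := D.hq
  have hw0 : w ≠ 0 := D.irr.ne_zero
  have hq2 : 2 ≤ Fintype.card Fq := Fintype.one_lt_card
  have hFr : ∀ (x : E) (p : Fq[X]) (i : ℕ),
      aeval (x ^ (Fintype.card Fq ^ i)) p = (aeval x p) ^ (Fintype.card Fq ^ i) := aeval_pow
  have hmin : ∀ a : Fq[X], aeval θ a = 0 → a.degree < d → a = 0 := by
    intro a ha hd
    have h1 : w = minpoly Fq θ := minpoly.eq_of_irreducible_of_monic D.irr D.root D.monic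
    have h2 : w ∣ a := by rw [h1]; exact minpoly.dvd Fq θ ha
    apply eq_zero_of_dvd_of_degree_lt h2
    rw [degree_eq_natDegree hw0, D.deg]
    exact hd
  have h6 : ∀ x : E, ∃! a : Fq[X], a.degree < d ∧ aeval θ a = x := by
    let f : (Fin d → Fq) → E := fun b => aeval θ ((degreeLTEquiv Fq d).symm b : Fq[X])
    have hinj : Function.Injective f := by
      intro b b' hbb
      have h1 : aeval θ (((degreeLTEquiv Fq d).symm (b - b') : degreeLT Fq d) : Fq[X]) = 0 := by
        rw [map_sub, Submodule.coe_sub, map_sub, sub_eq_zero]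
        exact hbb
      have h2 := hmin _ h1 (mem_degreeLT.mp ((degreeLTEquiv Fq d).symm (b - b')).2)
      have h3 : (degreeLTEquiv Fq d).symm (b - b') = 0 := Subtype.ext h2
      rw [LinearEquiv.map_eq_zero_iff, sub_eq_zero] at h3
      exact h3
    have hbij : Function.Bijective f := by
      rw [Fintype.bijective_iff_injective_and_card]
      refine ⟨hinj, ?_⟩
      rw [D.hd, Fintype.card_fun, Fintype.card_fin]
    intro x
    obtain ⟨b, hb⟩ := hbij.2 x
    refine ⟨((degreeLTEquiv Fq d).symm b : Fq[X]),
      ⟨mem_degreeLT.mp ((degreeLTEquiv Fq d).symm b).2, hb⟩, ?_⟩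
    rintro a ⟨ha, hax⟩
    rw [← sub_eq_zero]
    apply hmin
    · rw [map_sub, hax, sub_eq_zero]
      exact hb.symm
    · exact lt_of_le_of_lt (degree_sub_le _ _)
        (max_lt ha (mem_degreeLT.mp ((degreeLTEquiv Fq d).symm b).2))
  have hper : ∀ m, 0 < m → m < d → θ ^ (Fintype.card Fq ^ m) ≠ θ := by
    intro m hm hmd h
    have hall : ∀ x : E, x ^ (Fintype.card Fq ^ m) = x := by
      intro x
      obtain ⟨a, ⟨-, ha⟩, -⟩ := h6 x
      rw [← ha, ← hFr, h]
    have hqm : 1 < Fintype.card Fq ^ m := Nat.one_lt_pow hm.ne' (by omega)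
    have hne : (X ^ (Fintype.card Fq ^ m) - X : E[X]) ≠ 0 := FiniteField.X_pow_card_sub_X_ne_zero E hqm
    have hsub : (Finset.univ : Finset E).val ⊆ (X ^ (Fintype.card Fq ^ m) - X : E[X]).roots := by
      intro x _
      rw [mem_roots hne]
      simp [IsRoot.def, hall x]
    have h1 := card_le_degree_of_subset_roots hsub
    rw [FiniteField.X_pow_card_sub_X_natDegree_eq E hqm, Finset.card_univ, D.hd] at h1
    have h2 : Fintype.card Fq ^ m < Fintype.card Fq ^ d := Nat.pow_lt_pow_right (by omega) hmd
    omega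
  have hFinj : ∀ (i : ℕ) (x y : E), x ^ (Fintype.card Fq ^ i) = y ^ (Fintype.card Fq ^ i) → x = y := by
    intro i
    obtain ⟨p, hp⟩ := CharP.exists Fq
    have := hp
    obtain ⟨n, hpp, hn⟩ := FiniteField.card Fq p
    have : Fact p.Prime := ⟨hpp⟩
    have : CharP E p := charP_of_injective_algebraMap (algebraMap Fq E).injective p
    intro x y hxy
    rw [hn, ← pow_mul] at hxy
    exact iterateFrobenius_inj E p (n * i) hxy
  have h2 : ∀ i < d, ∀ j < d, θ ^ (Fintype.card Fq ^ i) = θ ^ (Fintype.card Fq ^ j) → i = j := by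
    have aux : ∀ i j, i < j → j < d → θ ^ (Fintype.card Fq ^ i) ≠ θ ^ (Fintype.card Fq ^ j) := by
      intro i j hij hj h
      apply hper (j - i) (by omega) (by omega)
      apply hFinj i
      rw [← pow_mul, ← pow_add, Nat.sub_add_cancel hij.le]
      exact h.symm
    intro i hi j hj h
    rcases lt_trichotomy i j with h' | h' | h'
    · exact absurd h (aux i j h' hj)
    · exact h'
    · exact absurd h.symm (aux j i h' hi)
  have hroot : ∀ i, aeval (θ ^ (Fintype.card Fq ^ i)) w = 0 := by
    intro i
    rw [hFr, D.root, zero_pow (pow_ne_zero _ (by omega))]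
  refine ⟨?_, h2, ?_, ?_, fun i => hFr θ _ i, h6⟩
  · have hmon : (w.map (algebraMap Fq E)).Monic := D.monic.map _
    have hle : (Multiset.map (fun i => θ ^ (Fintype.card Fq ^ i)) (range d).val) ≤
        (w.map (algebraMap Fq E)).roots := by
      rw [Multiset.le_iff_subset]
      · intro x hx
        obtain ⟨i, -, rfl⟩ := Multiset.mem_map.mp hx
        rw [mem_roots hmon.ne_zero, IsRoot.def, eval_map_algebraMap]
        exact hroot i
      · refine Multiset.Nodup.map_on ?_ (range d).nodup
        intro i hi j hj hij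
        exact h2 i (by simpa using hi) j (by simpa using hj) hij
    have hcard : Multiset.card (w.map (algebraMap Fq E)).roots ≤ d := by
      refine (card_roots' _).trans ?_
      rw [natDegree_map, D.deg]
    have heq : (Multiset.map (fun i => θ ^ (Fintype.card Fq ^ i)) (range d).val) =
        (w.map (algebraMap Fq E)).roots := by
      apply Multiset.eq_of_le_of_card_le hle
      simpa using hcard
    have h3 := prod_multiset_X_sub_C_of_monic_of_roots_card_eq hmon (by
      rw [← heq, natDegree_map, D.deg]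
      simp)
    rw [← heq, Multiset.map_map] at h3
    rw [← h3]
    rfl
  · intro i
    rw [pow_add, mul_comm, pow_mul, ← D.hd, FiniteField.pow_card]
  · intro i
    exact (PerfectField.separable_of_irreducible D.irr).aeval_derivative_ne_zero (hroot i)

end Run7.h592.GK
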