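import Pool.Agent.Run7.h400.GK.StmK

set_option autoImplicit false

namespace Run7.h592.GK

open Polynomial Finset Run7.h400.GK

section Carlitz

variable {K : Type} [Field K]

/-- the linear Carlitz polynomials, defined by the recursion -/
noncomputable def Lj (q : ℕ) (T : K) : ℕ → K → K
  | 0, z => z
  | (j + 1), z => (Lj q T j z) ^ q - (Dm q T j) ^ (q - 1) * Lj q T j z

theorem Dm_succ {q : ℕ} {T : K} (φ : K →+* K) (hφ : ∀ x, φ x = x ^ q) (j : ℕ) :
    Dm q T (j + 1) = (T ^ (q ^ (j + 1)) - T) * (Dm q T j) ^ q := by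
  unfold Dm
  rw [Finset.prod_range_succ', ← hφ, map_prod, mul_comm]
  congr 1
  · simp
  · apply Finset.prod_congr rfl
    intro i _
    rw [map_sub, hφ, hφ, ← pow_mul, ← pow_mul, ← pow_succ, ← pow_succ]

theorem Lj_add {q : ℕ} {T : K} (φ : K →+* K) (hφ : ∀ x, φ x = x ^ q) (j : ℕ) (x y : K) :
    Lj q T j (x + y) = Lj q T j x + Lj q T j y := by
  induction j with
  | zero => rfl
  | succ j ih =>
    simp only [Lj]
    rw [ih, ← hφ, ← hφ, ← hφ, map_add]
    ring

theorem Lj_smul {q : ℕ} {T : K} (j : ℕ) (c x : K) (hc : c ^ q = c) :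
    Lj q T j (c * x) = c * Lj q T j x := by
  induction j with
  | zero => rfl
  | succ j ih =>
    simp only [Lj]
    rw [ih, mul_pow, hc]
    ring

theorem Lj_mul {q : ℕ} (hq : 2 ≤ q) {T : K} (φ : K →+* K) (hφ : ∀ x, φ x = x ^ q) (j : ℕ) (z : K) :
    Lj q T (j + 1) (T * z) = T * Lj q T (j + 1) z + (T ^ (q ^ (j + 1)) - T) * (Lj q T j z) ^ q := by
  obtain ⟨r, rfl⟩ : ∃ r, q = r + 1 := ⟨q - 1, by omega⟩
  induction j with
  | zero =>
    simp only [Lj, Dm, Finset.range_zero, Finset.prod_empty, one_pow, one_mul, zero_add, pow_one]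
    rw [mul_pow]
    ring
  | succ j ih =>
    have e1 : Lj (r + 1) T (j + 1 + 1) (T * z) = (Lj (r + 1) T (j + 1) (T * z)) ^ (r + 1) -
      (Dm (r + 1) T (j + 1)) ^ r * Lj (r + 1) T (j + 1) (T * z) := rfl
    have e2 : Lj (r + 1) T (j + 1 + 1) z = (Lj (r + 1) T (j + 1) z) ^ (r + 1) -
      (Dm (r + 1) T (j + 1)) ^ r * Lj (r + 1) T (j + 1) z := rfl
    have e3 : Lj (r + 1) T (j + 1) z = (Lj (r + 1) T j z) ^ (r + 1) -
      (Dm (r + 1) T j) ^ r * Lj (r + 1) T j z := rfl
    have e4 : Dm (r + 1) T (j + 1) = (T ^ ((r + 1) ^ (j + 1)) - T) * (Dm (r + 1) T j) ^ (r + 1) :=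
      Dm_succ φ hφ j
    have e5 : (Lj (r + 1) T (j + 1) z) ^ (r + 1) = ((Lj (r + 1) T j z) ^ (r + 1)) ^ (r + 1) -
      ((Dm (r + 1) T j) ^ r) ^ (r + 1) * (Lj (r + 1) T j z) ^ (r + 1) := by
      rw [e3, ← hφ, map_sub, map_mul, hφ, hφ, hφ]
    have e6 : (T * Lj (r + 1) T (j + 1) z +
        (T ^ ((r + 1) ^ (j + 1)) - T) * (Lj (r + 1) T j z) ^ (r + 1)) ^ (r + 1) =
        T ^ (r + 1) * (Lj (r + 1) T (j + 1) z) ^ (r + 1) +
        (T ^ ((r + 1) ^ (j + 2)) - T ^ (r + 1)) * ((Lj (r + 1) T j z) ^ (r + 1)) ^ (r + 1) := by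
      rw [← hφ, map_add, map_mul, map_mul, map_sub, hφ, hφ, hφ, hφ, ← pow_mul, ← pow_succ]
    have e7 : (T ^ ((r + 1) ^ (j + 1)) - T) ^ (r + 1) = T ^ ((r + 1) ^ (j + 2)) - T ^ (r + 1) := by
      rw [← hφ, map_sub, hφ, hφ, ← pow_mul, ← pow_succ]
    rw [e1, ih, e6, e2]
    have e8 : (Dm (r + 1) T (j + 1)) ^ r * (T ^ ((r + 1) ^ (j + 1)) - T) =
        (T ^ ((r + 1) ^ (j + 2)) - T ^ (r + 1)) * ((Dm (r + 1) T j) ^ r) ^ (r + 1) := by
      rw [e4, ← e7, mul_pow, ← pow_mul, ← pow_mul, mul_comm r (r + 1)]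
      ring
    have e9 : j + 1 + 1 = j + 2 := rfl
    rw [e9]
    linear_combination (T ^ (r + 1) - T ^ ((r + 1) ^ (j + 2))) * e5 -
      (Lj (r + 1) T j z) ^ (r + 1) * e8

theorem Lj_pow {q : ℕ} (hq : 2 ≤ q) {T : K} (φ : K →+* K) (hφ : ∀ x, φ x = x ^ q) (m : ℕ) :
    ∀ j, (m < j → Lj q T j (T ^ m) = 0) ∧ (m = j → Lj q T j (T ^ m) = Dm q T j) := by
  have hq0 : q ≠ 0 := by omega
  induction m with
  | zero =>
    have h0 : ∀ j, Lj q T (j + 1) 1 = 0 := by
      intro j
      induction j with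
      | zero => simp [Lj, Dm]
      | succ j ih =>
        have e1 : Lj q T (j + 1 + 1) 1 = (Lj q T (j + 1) 1) ^ q -
          (Dm q T (j + 1)) ^ (q - 1) * Lj q T (j + 1) 1 := rfl
        rw [e1, ih, zero_pow hq0]
        ring
    intro j
    rw [pow_zero]
    refine ⟨fun h => ?_, fun h => ?_⟩
    · obtain ⟨i, rfl⟩ : ∃ i, j = i + 1 := ⟨j - 1, by omega⟩
      exact h0 i
    · subst h
      simp [Lj, Dm]
  | succ m ih =>
    intro j
    refine ⟨fun h => ?_, fun h => ?_⟩
    · obtain ⟨i, rfl⟩ : ∃ i, j = i + 1 := ⟨j - 1, by omega⟩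
      rw [pow_succ', Lj_mul hq φ hφ, (ih (i + 1)).1 (by omega), (ih i).1 (by omega), zero_pow hq0]
      ring
    · subst h
      rw [pow_succ', Lj_mul hq φ hφ, (ih (m + 1)).1 (by omega), (ih m).2 rfl, Dm_succ φ hφ]
      ring

end Carlitz

section prod

variable {Fq K : Type} [Field Fq] [Fintype Fq] [Field K] [Algebra Fq K]

theorem prod_add (Y D : K) :
    ∏ c : Fq, (Y + algebraMap Fq K c * D) =
      Y ^ (Fintype.card Fq) - D ^ (Fintype.card Fq - 1) * Y := by
  have hq : 1 < Fintype.card Fq := Fintype.one_lt_card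
  by_cases hD : D = 0
  · subst hD
    simp only [mul_zero, add_zero, Finset.prod_const, Finset.card_univ]
    rw [zero_pow (by omega)]
    ring
  · have hmon : (X ^ (Fintype.card Fq) - X : Fq[X]).Monic := by
      apply monic_X_pow_sub
      rw [degree_X]
      exact_mod_cast hq
    have h1 : ∏ c : Fq, (X - C c) = X ^ (Fintype.card Fq) - X := by
      have := prod_multiset_X_sub_C_of_monic_of_roots_card_eq hmon (by
        rw [FiniteField.roots_X_pow_card_sub_X, FiniteField.X_pow_card_sub_X_natDegree_eq Fq hq]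
        simp)
      rw [FiniteField.roots_X_pow_card_sub_X] at this
      exact this
    have h2 := congrArg (aeval (Y / D)) h1
    rw [map_prod] at h2
    simp only [map_sub, aeval_X, aeval_C, map_pow] at h2
    have h3 : ∏ c : Fq, (Y + algebraMap Fq K c * D) =
        ∏ c : Fq, (D * (Y / D - algebraMap Fq K c)) := by
      apply Fintype.prod_equiv (Equiv.neg Fq)
      intro c
      simp only [Equiv.neg_apply, map_neg]
      field_simp
      ring
    rw [h3, Finset.prod_mul_distrib, h2, Finset.prod_const, Finset.card_univ]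
    obtain ⟨r, hr⟩ : ∃ r, Fintype.card Fq = r + 1 := ⟨Fintype.card Fq - 1, by omega⟩
    rw [hr, Nat.add_sub_cancel, mul_sub, div_pow, mul_div_cancel₀ _ (pow_ne_zero _ hD), pow_succ]
    field_simp
    ring

theorem prod_Lj (T : K) (φ : K →+* K) (hφ : ∀ x, φ x = x ^ Fintype.card Fq) (j : ℕ) (z : K) :
    ∏ b : Fin j → Fq, (z + ∑ i : Fin j, algebraMap Fq K (b i) * T ^ (i : ℕ)) =
      Lj (Fintype.card Fq) T j z := by
  have hq : 2 ≤ Fintype.card Fq := Fintype.one_lt_card
  induction j generalizing z with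
  | zero => simp [Lj]
  | succ j ih =>
    rw [← (Fin.snocEquiv (fun _ : Fin (j + 1) => Fq)).prod_comp, Fintype.prod_prod_type]
    have h1 : ∀ c : Fq, ∏ b : Fin j → Fq, (z + ∑ i : Fin (j + 1),
        algebraMap Fq K ((Fin.snocEquiv (fun _ : Fin (j + 1) => Fq)) (c, b) i) * T ^ (i : ℕ)) =
        Lj (Fintype.card Fq) T j z + algebraMap Fq K c * Dm (Fintype.card Fq) T j := by
      intro c
      have h2 : Lj (Fintype.card Fq) T j z + algebraMap Fq K c * Dm (Fintype.card Fq) T j =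
          Lj (Fintype.card Fq) T j (z + algebraMap Fq K c * T ^ j) := by
        rw [Lj_add φ hφ, Lj_smul _ _ _ (by rw [← map_pow, FiniteField.pow_card]),
          (Lj_pow hq φ hφ j j).2 rfl]
      rw [h2, ← ih]
      apply Finset.prod_congr rfl
      intro b _
      rw [Fin.sum_univ_castSucc]
      simp only [Fin.snocEquiv_apply, Fin.snoc_castSucc, Fin.snoc_last, Fin.val_castSucc, Fin.val_last]
      ring
    rw [Finset.prod_congr rfl fun c _ => h1 c, prod_add]
    rfl

end prod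

section main

variable {Fq E K : Type} [Field Fq] [Fintype Fq] [Field E] [Fintype E] [Algebra Fq E]
  [Field K] [Algebra Fq K] [Algebra E K] [IsScalarTower Fq E K]

/-- the finite level Gauss sums, in any field -/
noncomputable def gK (q : ℕ) (w : Fq[X]) (θ : E) (T : K) (j i : ℕ) : K :=
  (-1) ^ j / (algebraMap E K (aeval (θ ^ (q ^ i)) (derivative w)) *
    ∏ l ∈ range (j + 1), (T ^ (q ^ l) - algebraMap E K (θ ^ (q ^ i))))

theorem lagr (hF : S_FRB) (w : Fq[X]) (θ : E) (q d : ℕ) (a : Fq[X]) (D : Dat Fq E w θ q d)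
    (ha : a.degree < d) (T : K) (hT : ∀ i l, T ^ (q ^ l) ≠ algebraMap E K (θ ^ (q ^ i))) :
    aeval T a = aeval T w * lam q d (gK q w θ T 0) (aeval θ a) := by
  classical
  obtain ⟨h1, h2, h3, h4, h5, h6⟩ := hF Fq E w θ q d D
  obtain rfl := D.hq
  let v : ℕ → K := fun i => algebraMap E K (θ ^ (Fintype.card Fq ^ i))
  have hv : Set.InjOn v (range d) := by
    intro i hi j hj hij
    exact h2 i (by simpa using hi) j (by simpa using hj) ((algebraMap E K).injective hij)
  have hnod : Lagrange.nodal (range d) v = w.map (algebraMap Fq K) := by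
    rw [IsScalarTower.algebraMap_eq Fq E K, ← Polynomial.map_map, h1, Lagrange.nodal,
      Polynomial.map_prod]
    apply Finset.prod_congr rfl
    intro i _
    simp [v]
  have hmap : ∀ (x : E) (p : Fq[X]), (p.map (algebraMap Fq K)).eval (algebraMap E K x) =
      algebraMap E K (aeval x p) := by
    intro x p
    rw [eval_map_algebraMap, aeval_algebraMap_apply]
  have hdeg : (a.map (algebraMap Fq K)).degree < #(range d) := by
    rw [degree_map, card_range]
    exact ha
  have h7 := Lagrange.eq_interpolate hv hdeg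
  have h8 := congrArg (eval T) h7
  rw [Lagrange.eval_interpolate_not_at_node _ (fun i _ => by
    have := hT i 0
    rw [pow_zero, pow_one] at this
    exact this), eval_map_algebraMap, hnod, eval_map_algebraMap] at h8
  rw [h8]
  congr 1
  unfold lam
  apply Finset.sum_congr rfl
  intro i hi
  rw [Lagrange.nodalWeight_eq_eval_derivative_nodal hi, hnod, derivative_map, hmap, hmap]
  have h9 : aeval (θ ^ (Fintype.card Fq ^ i)) a = aeval θ a ^ (Fintype.card Fq ^ i) := by
    have hFr : ∀ (x : E) (p : Fq[X]) (i : ℕ),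
        aeval (x ^ (Fintype.card Fq ^ i)) p = (aeval x p) ^ (Fintype.card Fq ^ i) := by
      intro x p i
      induction i with
      | zero => simp
      | succ i ih =>
        have h1 : ∀ y : E, aeval (y ^ Fintype.card Fq) p = (aeval y p) ^ Fintype.card Fq := by
          intro y
          rw [← expand_aeval, FiniteField.expand_card, map_pow]
        rw [pow_succ, pow_mul, h1, ih, ← pow_mul]
    exact hFr _ _ _
  rw [h9]
  unfold gK
  simp only [pow_zero, zero_add, range_one, prod_singleton, pow_one]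
  have h10 : algebraMap E K (aeval (θ ^ (Fintype.card Fq ^ i)) (derivative w)) ≠ 0 := by
    rw [Ne, map_eq_zero_iff _ (algebraMap E K).injective]
    exact h4 i
  have h11 : T - algebraMap E K (θ ^ (Fintype.card Fq ^ i)) ≠ 0 := by
    have := hT i 0
    rw [pow_zero, pow_one] at this
    exact sub_ne_zero.mpr this
  show _ * (T - algebraMap E K (θ ^ (Fintype.card Fq ^ i)))⁻¹ * _ = _
  field_simp

theorem lam_step (hF : S_FRB) (w : Fq[X]) (θ : E) (q d : ℕ) (D : Dat Fq E w θ q d) (T : K)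
    (hT : ∀ i l, T ^ (q ^ l) ≠ algebraMap E K (θ ^ (q ^ i))) (φ : K →+* K)
    (hφ : ∀ x, φ x = x ^ q) (j : ℕ) (x : E) :
    (lam q d (gK q w θ T j) x) ^ q - lam q d (gK q w θ T j) x =
      (T ^ (q ^ (j + 1)) - T) * lam q d (gK q w θ T (j + 1)) x := by
  obtain ⟨h1, h2, h3, h4, h5, h6⟩ := hF Fq E w θ q d D
  have hne : ∀ i, algebraMap E K (aeval (θ ^ (q ^ i)) (derivative w)) ≠ 0 := by
    intro i
    rw [Ne, map_eq_zero_iff _ (algebraMap E K).injective]
    exact h4 i
  have hne2 : ∀ i l, T ^ (q ^ l) - algebraMap E K (θ ^ (q ^ i)) ≠ 0 := fun i l =>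
    sub_ne_zero.mpr (hT i l)
  let P : ℕ → K := fun i => ∏ l ∈ range j, (T ^ (q ^ (l + 1)) - algebraMap E K (θ ^ (q ^ i)))
  have hP : ∀ i, P i ≠ 0 := fun i => Finset.prod_ne_zero_iff.mpr fun l _ => hne2 i (l + 1)
  let h : ℕ → K := fun i => algebraMap E K (x ^ (q ^ i)) * ((-1) ^ j /
    (algebraMap E K (aeval (θ ^ (q ^ i)) (derivative w)) *
      (P i * (T ^ (q ^ (j + 1)) - algebraMap E K (θ ^ (q ^ i))))))
  have hm1 : ((-1 : K)) ^ q = -1 := by rw [← hφ, map_neg, map_one]
  have hA : ∀ y : E, algebraMap E K y ^ q = algebraMap E K (y ^ q) := fun y => (map_pow _ _ _).symm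
  have e1 : (lam q d (gK q w θ T j) x) ^ q = ∑ i ∈ range d, h (i + 1) := by
    unfold lam
    rw [← hφ, map_sum]
    apply Finset.sum_congr rfl
    intro i _
    simp only [h, P]
    rw [map_mul, hφ, hA, ← pow_mul, ← pow_succ]
    congr 1
    unfold gK
    rw [map_div₀, map_mul, map_prod, hφ, hφ, hA, ← pow_mul, mul_comm j q, pow_mul, hm1]
    have e2 : (aeval (θ ^ (q ^ i)) (derivative w)) ^ q =
        aeval (θ ^ (q ^ (i + 1))) (derivative w) := by
      rw [h5 i, h5 (i + 1), ← pow_mul, ← pow_succ]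
    have e3 : ∀ l, φ (T ^ (q ^ l) - algebraMap E K (θ ^ (q ^ i))) =
        T ^ (q ^ (l + 1)) - algebraMap E K (θ ^ (q ^ (i + 1))) := by
      intro l
      rw [map_sub, hφ, hφ, hA, ← pow_mul, ← pow_mul, ← pow_succ, ← pow_succ]
    rw [e2, Finset.prod_congr rfl fun l _ => e3 l, Finset.prod_range_succ]
  have e4 : ∑ i ∈ range d, h (i + 1) = ∑ i ∈ range d, h i := by
    have e5 : h d = h 0 := by
      have e6 : x ^ (q ^ d) = x ^ (q ^ 0) := by
        rw [← D.hd, FiniteField.pow_card, pow_zero, pow_one]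
      have e7 : θ ^ (q ^ d) = θ ^ (q ^ 0) := by
        rw [← D.hd, FiniteField.pow_card, pow_zero, pow_one]
      simp only [h, P, e6, e7]
    have e8 := Finset.sum_range_succ' h d
    rw [Finset.sum_range_succ, e5] at e8
    exact (add_right_cancel e8).symm
  rw [e1, e4]
  unfold lam
  rw [← Finset.sum_sub_distrib, Finset.mul_sum]
  apply Finset.sum_congr rfl
  intro i _
  simp only [h]
  unfold gK
  have e9 : ∏ l ∈ range (j + 1), (T ^ (q ^ l) - algebraMap E K (θ ^ (q ^ i))) =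
      P i * (T - algebraMap E K (θ ^ (q ^ i))) := by
    rw [Finset.prod_range_succ', pow_zero, pow_one]
  have e10 : ∏ l ∈ range (j + 1 + 1), (T ^ (q ^ l) - algebraMap E K (θ ^ (q ^ i))) =
      P i * (T - algebraMap E K (θ ^ (q ^ i))) *
        (T ^ (q ^ (j + 1)) - algebraMap E K (θ ^ (q ^ i))) := by
    rw [Finset.prod_range_succ, e9]
  rw [e9, e10]
  have f1 := hne i
  have f2 := hP i
  have f3 := hne2 i (j + 1)
  have f4 : T - algebraMap E K (θ ^ (q ^ i)) ≠ 0 := by
    have := hne2 i 0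
    rw [pow_zero, pow_one] at this
    exact this
  field_simp
  ring

theorem main (hF : S_FRB) (w : Fq[X]) (θ : E) (q d : ℕ) (a : Fq[X]) (D : Dat Fq E w θ q d)
    (ha : a.degree < d) (T : K) (hT : ∀ i l, T ^ (q ^ l) ≠ algebraMap E K (θ ^ (q ^ i)))
    (φ : K →+* K) (hφ : ∀ x, φ x = x ^ q) (j : ℕ) :
    aeval T (∏ b : Fin j → Fq, (a + w * ∑ i : Fin j, C (b i) * X ^ (i : ℕ))) =
      aeval T w ^ (q ^ j) * Dm q T j * lam q d (gK q w θ T j) (aeval θ a) := by
  have hl := lagr hF w θ q d a D ha T hT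
  have hw : aeval T w ≠ 0 := by
    obtain ⟨h1, -⟩ := hF Fq E w θ q d D
    have e : aeval T w = ∏ i ∈ range d, (T - algebraMap E K (θ ^ (q ^ i))) := by
      rw [← eval_map_algebraMap, IsScalarTower.algebraMap_eq Fq E K, ← Polynomial.map_map, h1,
        Polynomial.map_prod, eval_prod]
      apply Finset.prod_congr rfl
      intro i _
      simp
    rw [e, Finset.prod_ne_zero_iff]
    intro i _
    have := hT i 0
    rw [pow_zero, pow_one] at this
    exact sub_ne_zero.mpr this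
  have hstep := lam_step hF w θ q d D T hT φ hφ
  obtain rfl := D.hq
  have hLj : ∀ j, Lj (Fintype.card Fq) T j (lam (Fintype.card Fq) d (gK (Fintype.card Fq) w θ T 0)
      (aeval θ a)) = Dm (Fintype.card Fq) T j *
        lam (Fintype.card Fq) d (gK (Fintype.card Fq) w θ T j) (aeval θ a) := by
    intro j
    induction j with
    | zero => simp [Lj, Dm]
    | succ j ih =>
      have e1 : ∀ z, Lj (Fintype.card Fq) T (j + 1) z = (Lj (Fintype.card Fq) T j z) ^
        (Fintype.card Fq) - (Dm (Fintype.card Fq) T j) ^ (Fintype.card Fq - 1) *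
          Lj (Fintype.card Fq) T j z := fun _ => rfl
      have hq : 1 < Fintype.card Fq := Fintype.one_lt_card
      have e2 : (Dm (Fintype.card Fq) T j) ^ (Fintype.card Fq) =
          (Dm (Fintype.card Fq) T j) ^ (Fintype.card Fq - 1) * Dm (Fintype.card Fq) T j := by
        rw [← pow_succ, Nat.sub_add_cancel (by omega)]
      have e3 := hstep j (aeval θ a)
      rw [e1, ih, Dm_succ φ hφ, mul_pow]
      linear_combination (Dm (Fintype.card Fq) T j) ^ (Fintype.card Fq) * e3 +
        lam (Fintype.card Fq) d (gK (Fintype.card Fq) w θ T j) (aeval θ a) * e2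
  rw [map_prod]
  have h1 : ∀ b : Fin j → Fq, aeval T (a + w * ∑ i : Fin j, C (b i) * X ^ (i : ℕ)) =
      aeval T w * (lam (Fintype.card Fq) d (gK (Fintype.card Fq) w θ T 0) (aeval θ a) +
        ∑ i : Fin j, algebraMap Fq K (b i) * T ^ (i : ℕ)) := by
    intro b
    rw [map_add, hl, map_mul, map_sum]
    simp only [map_mul, aeval_C, map_pow, aeval_X]
    ring
  rw [Finset.prod_congr rfl fun b _ => h1 b, Finset.prod_mul_distrib, prod_Lj T φ hφ, hLj,
    Finset.prod_const, Finset.card_univ, Fintype.card_fun, Fintype.card_fin]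
  ring

end main

theorem algL (Fq E : Type) [Field Fq] [Field E] [Algebra Fq E] (y : Fq) : algebraMap Fq (LaurentSeries E) y = HahnSeries.single 0 (algebraMap Fq E y) := by
  have h : algebraMap Fq (LaurentSeries E) y = HahnSeries.ofPowerSeries ℤ E (algebraMap Fq (PowerSeries E) y) := rfl
  rw [h, PowerSeries.algebraMap_apply, HahnSeries.ofPowerSeries_C, HahnSeries.C_apply]

theorem towerL (Fq E : Type) [Field Fq] [Field E] [Algebra Fq E] :
   @IsScalarTower Fq E (LaurentSeries E) Algebra.toSMul Algebra.toSMul Algebra.toSMul := by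
  apply IsScalarTower.of_algebraMap_eq
  intro x
  rw [algL, algL]
  rfl

theorem TTne (E : Type) [Field E] (q : ℕ) (hq : 2 ≤ q) (l : ℕ) (y : E) :
    TT E q ^ (q ^ l) ≠ algebraMap E (LaurentSeries E) y := by
  intro h
  unfold TT at h
  rw [HahnSeries.single_pow, algL] at h
  have h1 := congrArg (fun f : LaurentSeries E => f.coeff (q ^ l • (-((q : ℤ) - 1)))) h
  have h2 : (HahnSeries.single (q ^ l • (-((q : ℤ) - 1))) ((-1 : E) ^ q ^ l)).coeff
    (q ^ l • (-((q : ℤ) - 1))) = (-1 : E) ^ q ^ l := HahnSeries.coeff_single_same _ _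
  have h3 : (HahnSeries.single (0 : ℤ) ((algebraMap E E) y)).coeff
    (q ^ l • (-((q : ℤ) - 1))) = 0 := by
    apply HahnSeries.coeff_single_of_ne
    simp only [nsmul_eq_mul]
    have h4 : ((q ^ l : ℕ) : ℤ) ≠ 0 := by positivity
    intro h5
    rcases mul_eq_zero.mp h5 with h6 | h6
    · exact h4 h6
    · omega
  have h4 : (-1 : E) ^ q ^ l = 0 := by
    rw [← h2, ← h3]
    exact h1
  exact pow_ne_zero _ (neg_ne_zero.mpr one_ne_zero) h4

theorem t_ZJF (hF : S_FRB) : S_ZJF := by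
  intro Fq E _ _ _ _ _ w θ q d j a D ha
  have hq2 : 2 ≤ q := by
    rw [D.hq]
    exact Fintype.one_lt_card
  obtain ⟨p, hp⟩ := CharP.exists Fq
  have hp' := hp
  obtain ⟨n, hpp, hn⟩ := FiniteField.card Fq p
  have : Fact p.Prime := ⟨hpp⟩
  have : CharP (LaurentSeries E) p :=
    charP_of_injective_algebraMap (algebraMap Fq (LaurentSeries E)).injective p
  have hφ : ∀ x : LaurentSeries E, iterateFrobenius (LaurentSeries E) p n x = x ^ q := by
    intro x
    rw [iterateFrobenius_def, D.hq, hn]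
  have hT : ∀ i l, TT E q ^ (q ^ l) ≠ algebraMap E (LaurentSeries E) (θ ^ (q ^ i)) :=
    fun i l => TTne E q hq2 l _
  have := towerL Fq E
  exact main hF w θ q d a D ha (TT E q) hT _ hφ j

end Run7.h592.GK
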